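import Pool.Agent.Q147.SpecDirCor

/-!
# Numbers of directions of equidistribution that do not occur

A direction of the affine plane over `ZMod p` is a one-dimensional subspace `v` of
`ZMod p × ZMod p`; the lines parallel to `v` are the cosets `x + v`.
-/

set_option autoImplicit false

namespace Pool.Agent.Results.MP_ec4324_co.LargePrimes

/-- `S` is equidistributed in the direction `v`: every two lines `x + v`, `y + v` parallel to `v`
contain the same number of points of `S`. -/
def EquidistributedIn {p : ℕ} (S : Finset (ZMod p × ZMod p))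
    (v : Submodule (ZMod p) (ZMod p × ZMod p)) : Prop :=
  ∀ x y : ZMod p × ZMod p, {s : ZMod p × ZMod p | s ∈ S ∧ s - x ∈ v}.ncard =
    {s : ZMod p × ZMod p | s ∈ S ∧ s - y ∈ v}.ncard

/-- For every `k ≥ 4` and every sufficiently large prime `p` there is no set
`S ⊆ 𝔽_p²` that is equidistributed in exactly `p + 1 - k` directions. -/
theorem result (k : ℕ) (hk : 4 ≤ k) :
    ∃ p₀ : ℕ, k ≤ p₀ ∧ ∀ (p : ℕ) [Fact p.Prime], p₀ < p →
      ¬ ∃ S : Finset (ZMod p × ZMod p),
        {v : Submodule (ZMod p) (ZMod p × ZMod p) |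
          Module.finrank (ZMod p) v = 1 ∧ EquidistributedIn S v}.ncard = p + 1 - k := by
  obtain ⟨p₀, h1, h2⟩ := Q147.SpecDirCor.final k hk
  exact ⟨p₀, h1, fun p _ hlt ⟨S, hS⟩ => h2 p hlt S hS⟩

end Pool.Agent.Results.MP_ec4324_co.LargePrimes
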